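import Mathlib

/-!
# Circuits of unbounded fan-in with guess bits, and their depth of sharing

Definitions only.
-/

open Finset

namespace Pool.Agent.Y633.Dep

/-- What a gate can read: an input variable, a guess bit, or a gate. -/
abbrev Src (n q s : ℕ) := (Fin n ⊕ Fin q) ⊕ Fin s

/-- A circuit with `n` inputs and `q` guess bits: `size` gates; gate `i` has `arity i` incoming
wires, the `a`-th one coming from `src i a`, and is labelled by the Boolean function `op i`; the
gates are numbered so that wires between gates go from smaller to larger numbers; one gate is the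
output. -/
structure Circuit (n q : ℕ) : Type where
  size : ℕ
  arity : Fin size → ℕ
  src : (i : Fin size) → Fin (arity i) → Src n q size
  op : (i : Fin size) → (Fin (arity i) → Bool) → Bool
  acyclic : ∀ i a j, src i a = Sum.inr j → j < i
  out : Fin size

/-- `v` is the assignment of values to the gates determined by the values `ξ` of the variables
(inputs and guess bits). -/
def Circuit.IsRun {n q : ℕ} (C : Circuit n q) (ξ : Fin n ⊕ Fin q → Bool)
    (v : Fin C.size → Bool) : Prop :=
  ∀ i, v i = C.op i (fun a => Sum.elim ξ v (C.src i a))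

/-- The circuit computes `f`: `f x = true` iff some setting `w` of the guess bits makes the
output gate true. -/
def Circuit.Computes {n q : ℕ} (C : Circuit n q) (f : (Fin n → Bool) → Bool) : Prop :=
  ∀ x, f x = true ↔ ∃ (w : Fin q → Bool) (v : Fin C.size → Bool),
    C.IsRun (Sum.elim x w) v ∧ v C.out = true

/-- The total number of wires. -/
def Circuit.numWires {n q : ℕ} (C : Circuit n q) : ℕ := ∑ i, C.arity i

/-- The number of wires leaving gate `j`. -/
def Circuit.fanOut {n q : ℕ} (C : Circuit n q) (j : Fin C.size) : ℕ :=
  ∑ i, (univ.filter fun a => C.src i a = Sum.inr j).card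

/-- Every directed path of gates outside the set `E` contains at most `d` gates with two or more
outgoing wires. -/
def Circuit.SharingDepthLE {n q : ℕ} (C : Circuit n q) (E : Finset (Fin C.size)) (d : ℕ) : Prop :=
  ∀ l : List (Fin C.size), l.IsChain (fun j i => ∃ a, C.src i a = Sum.inr j) →
    (∀ j ∈ l, j ∉ E) → l.countP (fun j => 2 ≤ C.fanOut j) ≤ d

/-- A Boolean function is `K`-narrow if, for every nonempty set `M` of its variables, fixing the
variables outside `M` in all possible ways gives at most `2 ^ (K * |M|)` functions of the
variables in `M`. -/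
def Narrow (K : ℕ) {k : ℕ} (φ : (Fin k → Bool) → Bool) : Prop :=
  ∀ M : Finset (Fin k), M.Nonempty →
    Set.ncard {g : ({a // a ∈ M} → Bool) → Bool |
      ∃ z : Fin k → Bool, ∀ y, g y = φ (fun a => if h : a ∈ M then y ⟨a, h⟩ else z a)}
      ≤ 2 ^ (K * M.card)

/-- The gates allowed: arbitrary functions of at most `K` variables, symmetric functions, linear
threshold functions with arbitrary real weights, and `K`-narrow functions. -/
def Allowed (K : ℕ) {k : ℕ} (φ : (Fin k → Bool) → Bool) : Prop :=
  k ≤ K ∨ (∀ (σ : Equiv.Perm (Fin k)) (y : Fin k → Bool), φ (y ∘ σ) = φ y) ∨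
    (∃ (w : Fin k → ℝ) (t : ℝ), ∀ y, φ y = true ↔ t ≤ ∑ a, if y a then w a else 0) ∨
    Narrow K φ

end Pool.Agent.Y633.Dep
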