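import Mathlib
import Pool.Agent.Y633.Dep.Defs

/-! # The allowed gates are narrow -/

open Finset

namespace Pool.Agent.Y633.Dep

/-- The restriction of `φ` to the variables in `M`. -/
def restr {k : ℕ} (φ : (Fin k → Bool) → Bool) (M : Finset (Fin k)) (z : Fin k → Bool) :
    ({a // a ∈ M} → Bool) → Bool :=
  fun y => φ (fun a => if h : a ∈ M then y ⟨a, h⟩ else z a)

lemma restr_set {k : ℕ} (φ : (Fin k → Bool) → Bool) (M : Finset (Fin k)) :
    {g : ({a // a ∈ M} → Bool) → Bool |
      ∃ z : Fin k → Bool, ∀ y, g y = φ (fun a => if h : a ∈ M then y ⟨a, h⟩ else z a)} =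
    Set.range (restr φ M) := by
  ext g
  simp only [Set.mem_setOf_eq, Set.mem_range, restr]
  constructor
  · rintro ⟨z, hz⟩
    exact ⟨z, by funext y; exact (hz y).symm⟩
  · rintro ⟨z, rfl⟩
    exact ⟨z, fun y => rfl⟩

lemma narrow_of_factor {K k : ℕ} (φ : (Fin k → Bool) → Bool)
    (h : ∀ M : Finset (Fin k), M.Nonempty → ∃ (τ : Type) (_ : Fintype τ)
      (F : (Fin k → Bool) → τ), (∀ z z', F z = F z' → restr φ M z = restr φ M z') ∧
        Fintype.card τ ≤ 2 ^ (K * M.card)) : Narrow K φ := by
  classical
  intro M hM
  rw [restr_set]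
  obtain ⟨τ, _, F, hF, hc⟩ := h M hM
  refine le_trans ?_ hc
  have : Set.range (restr φ M) ⊆
      Set.range (fun t : τ => if h : ∃ z, F z = t then restr φ M h.choose else fun _ => false) := by
    rintro g ⟨z, rfl⟩
    refine ⟨F z, ?_⟩
    have hex : ∃ z', F z' = F z := ⟨z, rfl⟩
    simp only [hex, dite_true]
    exact hF _ _ hex.choose_spec
  refine (Set.ncard_le_ncard this (Set.finite_range _)).trans ?_
  rw [← Set.image_univ]
  refine (Set.ncard_image_le Set.finite_univ).trans ?_
  rw [Set.ncard_univ, Nat.card_eq_fintype_card]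

lemma narrow_mono {K K' k : ℕ} (h : K ≤ K') {φ : (Fin k → Bool) → Bool} (hφ : Narrow K φ) :
    Narrow K' φ := by
  intro M hM
  refine (hφ M hM).trans ?_
  exact Nat.pow_le_pow_right (by norm_num) (Nat.mul_le_mul_right _ h)

lemma narrow_small {K k : ℕ} (h : k ≤ K) (φ : (Fin k → Bool) → Bool) : Narrow K φ := by
  apply narrow_of_factor
  intro M hM
  refine ⟨Fin k → Bool, inferInstance, id, fun z z' h => by rw [show z = z' from h], ?_⟩
  rw [Fintype.card_fun, Fintype.card_bool, Fintype.card_fin]
  apply Nat.pow_le_pow_right (by norm_num)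
  have : 1 ≤ M.card := hM.card_pos
  nlinarith

/-- A symmetric function depends only on the number of ones. -/
lemma symm_count {k : ℕ} (φ : (Fin k → Bool) → Bool)
    (h : ∀ (σ : Equiv.Perm (Fin k)) (y : Fin k → Bool), φ (y ∘ σ) = φ y)
    (y y' : Fin k → Bool)
    (hc : (univ.filter fun a => y a = true).card = (univ.filter fun a => y' a = true).card) :
    φ y = φ y' := by
  classical
  have e : Nonempty ({a // y' a = true} ≃ {a // y a = true}) := by
    rw [← Fintype.card_eq]
    rw [Fintype.card_subtype, Fintype.card_subtype]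
    exact hc.symm
  obtain ⟨e⟩ := e
  have : y ∘ (e.extendSubtype) = y' := by
    funext a
    by_cases ha : y' a = true
    · have := e.extendSubtype_mem a ha
      simp only [Function.comp_apply, this, ha]
    · have := e.extendSubtype_not_mem a ha
      simp only [Bool.not_eq_true] at this ha
      simp only [Function.comp_apply, this, ha]
  rw [← this, h]

lemma narrow_symm {k : ℕ} (φ : (Fin k → Bool) → Bool)
    (h : ∀ (σ : Equiv.Perm (Fin k)) (y : Fin k → Bool), φ (y ∘ σ) = φ y) : Narrow 2 φ := by
  classical
  apply narrow_of_factor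
  intro M hM
  -- the value profile
  let h0 : ℕ → Bool := fun s => if hs : ∃ y : Fin k → Bool,
    (univ.filter fun a => y a = true).card = s then φ hs.choose else false
  have hh0 : ∀ y, φ y = h0 ((univ.filter fun a => y a = true).card) := by
    intro y
    have hex : ∃ y' : Fin k → Bool, (univ.filter fun a => y' a = true).card =
      (univ.filter fun a => y a = true).card := ⟨y, rfl⟩
    simp only [h0, hex, dite_true]
    exact symm_count φ h _ _ hex.choose_spec.symm
  refine ⟨Fin (M.card + 1) → Bool, inferInstance,
    fun z i => h0 ((univ.filter fun a => a ∉ M ∧ z a = true).card + i), ?_, ?_⟩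
  · intro z z' hz
    funext y
    unfold restr
    have hcount : ∀ z : Fin k → Bool, (univ.filter fun a : Fin k =>
        (if h : a ∈ M then y ⟨a, h⟩ else z a) = true).card =
        (univ.filter fun a => a ∉ M ∧ z a = true).card +
          (univ.filter fun a : {a // a ∈ M} => y a = true).card := by
      intro z
      have hdisj : Disjoint (univ.filter fun a => a ∉ M ∧ z a = true)
        ((univ.filter fun a : {a // a ∈ M} => y a = true).map (Function.Embedding.subtype _)) := by
        rw [disjoint_left]
        intro a ha ha'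
        simp only [mem_filter, mem_univ, true_and] at ha
        simp only [mem_map, mem_filter, mem_univ, true_and, Function.Embedding.coe_subtype,
          Subtype.exists, exists_and_right, exists_eq_right] at ha'
        obtain ⟨hm, _⟩ := ha'
        exact ha.1 hm
      rw [← card_map (Function.Embedding.subtype (fun a => a ∈ M)), ← card_union_of_disjoint hdisj]
      congr 1
      ext a
      simp only [mem_filter, mem_univ, true_and, mem_union, mem_map,
        Function.Embedding.coe_subtype, Subtype.exists, exists_and_right, exists_eq_right]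
      by_cases ha : a ∈ M
      · simp [ha]
      · simp [ha]
    rw [hh0, hh0, hcount, hcount]
    have hle : (univ.filter fun a : {a // a ∈ M} => y a = true).card < M.card + 1 := by
      have := card_le_univ (univ.filter fun a : {a // a ∈ M} => y a = true)
      rw [Fintype.card_coe] at this
      omega
    exact congrFun hz ⟨_, hle⟩
  · rw [Fintype.card_fun, Fintype.card_bool, Fintype.card_fin]
    apply Nat.pow_le_pow_right (by norm_num)
    have : 1 ≤ M.card := hM.card_pos
    omega

lemma narrow_threshold {k : ℕ} (φ : (Fin k → Bool) → Bool)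
    (h : ∃ (w : Fin k → ℝ) (t : ℝ), ∀ y, φ y = true ↔ t ≤ ∑ a, if y a then w a else 0) :
    Narrow 2 φ := by
  classical
  obtain ⟨w, t, hφ⟩ := h
  apply narrow_of_factor
  intro M hM
  let S : (Fin k → Bool) → Finset ({a // a ∈ M} → Bool) := fun z =>
    univ.filter fun y => restr φ M z y = true
  have hsplit : ∀ z y, restr φ M z y = true ↔
      t ≤ (∑ a ∈ Mᶜ, if z a then w a else 0) + ∑ a : {a // a ∈ M}, if y a then w a else 0 := by
    intro z y
    unfold restr
    rw [hφ, ← Finset.sum_compl_add_sum M]
    have h1 : (∑ i ∈ Mᶜ, if (if h : i ∈ M then y ⟨i, h⟩ else z i) = true then w i else 0) =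
        ∑ a ∈ Mᶜ, if z a = true then w a else 0 := by
      apply sum_congr rfl
      intro a ha
      rw [mem_compl] at ha
      simp [ha]
    have h2 : (∑ i ∈ M, if (if h : i ∈ M then y ⟨i, h⟩ else z i) = true then w i else 0) =
        ∑ a : {a // a ∈ M}, if y a = true then w a else 0 := by
      rw [← Finset.sum_coe_sort M]
      apply sum_congr rfl
      intro a _
      simp
    rw [h1, h2]
  have hnest : ∀ z z', (S z).card = (S z').card → S z = S z' := by
    intro z z' hc
    rcases le_total (∑ a ∈ Mᶜ, if z a then w a else 0) (∑ a ∈ Mᶜ, if z' a then w a else 0)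
      with hle | hle
    · apply eq_of_subset_of_card_le _ hc.ge
      intro y hy
      simp only [S, mem_filter, mem_univ, true_and, hsplit] at hy ⊢
      linarith
    · symm
      apply eq_of_subset_of_card_le _ hc.le
      intro y hy
      simp only [S, mem_filter, mem_univ, true_and, hsplit] at hy ⊢
      linarith
  refine ⟨Fin (2 ^ M.card + 1), inferInstance, fun z => ⟨(S z).card, ?_⟩, ?_, ?_⟩
  · have := card_le_univ (S z)
    rw [Fintype.card_fun, Fintype.card_bool, Fintype.card_coe] at this
    omega
  · intro z z' hz
    have hc : (S z).card = (S z').card := by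
      have := congrArg Fin.val hz
      exact this
    have hS := hnest z z' hc
    funext y
    have : y ∈ S z ↔ y ∈ S z' := by rw [hS]
    simp only [S, mem_filter, mem_univ, true_and] at this
    cases h1 : restr φ M z y <;> cases h2 : restr φ M z' y <;> simp_all
  · rw [Fintype.card_fin]
    have h1 : 1 ≤ M.card := hM.card_pos
    have h2 : 2 ^ (2 * M.card) = 2 ^ M.card * 2 ^ M.card := by rw [two_mul, pow_add]
    have h3 : 2 ≤ 2 ^ M.card := by
      calc 2 = 2 ^ 1 := by norm_num
        _ ≤ _ := Nat.pow_le_pow_right (by norm_num) h1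
    rw [h2]
    nlinarith

lemma allowed_narrow {K k : ℕ} {φ : (Fin k → Bool) → Bool} (h : Allowed K φ) :
    Narrow (K + 2) φ := by
  rcases h with h | h | h | h
  · exact narrow_mono (by omega) (narrow_small h φ)
  · exact narrow_mono (by omega) (narrow_symm φ h)
  · exact narrow_mono (by omega) (narrow_threshold φ h)
  · exact narrow_mono (by omega) h

end Pool.Agent.Y633.Dep
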