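import Mathlib
import Pool.Agent.H559R2.SharingAsg
import Pool.Agent.Y633.Dep.Narrow

/-! # Families of functions at the gates -/

open Finset

set_option linter.unusedSectionVars false

namespace Pool.Agent.Y633.Dep

/-! ### Runs -/

lemma Circuit.exists_run' {n q : ℕ} (C : Circuit n q) (ξ : Fin n ⊕ Fin q → Bool) :
    ∃ v, C.IsRun ξ v := by
  apply Pool.Agent.H559R2.Sharing.exists_fixed
    (fun i v => C.op i (fun a => Sum.elim ξ v (C.src i a)))
  intro i v v' h
  congr 1
  funext a
  rcases hs : C.src i a with b | b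
  · simp
  · simp only [Sum.elim_inr]
    exact h b (C.acyclic i a b hs)

/-- Source values when the gates in `R` are replaced by guessed constants. -/
def cutSrc {n q s : ℕ} (R : Finset (Fin s)) (ξ : Fin n ⊕ Fin q → Bool)
    (a : {j // j ∈ R} → Bool) (v : Fin s → Bool) : Src n q s → Bool
  | Sum.inl i => ξ i
  | Sum.inr j => if h : j ∈ R then a ⟨j, h⟩ else v j

lemma exists_cutRun {n q : ℕ} (C : Circuit n q) (R : Finset (Fin C.size))
    (ξ : Fin n ⊕ Fin q → Bool) (a : {j // j ∈ R} → Bool) :
    ∃ v : Fin C.size → Bool, ∀ i, v i = C.op i (fun b => cutSrc R ξ a v (C.src i b)) := by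
  apply Pool.Agent.H559R2.Sharing.exists_fixed
    (fun i v => C.op i (fun b => cutSrc R ξ a v (C.src i b)))
  intro i v v' h
  congr 1
  funext b
  rcases hs : C.src i b with j | j
  · rfl
  · simp only [cutSrc]
    split_ifs
    · rfl
    · exact h j (C.acyclic i b j hs)

/-! ### Weights -/

/-- The weight of a source, given the weights of the gates: `B` is the set of live inputs, `R` the
set of cut gates. -/
def swt {n q s : ℕ} (B : Finset (Fin n)) (R : Finset (Fin s)) (ℓ : Fin s → ℕ) :
    Src n q s → ℕ
  | Sum.inl (Sum.inl i) => if i ∈ B then 1 else 0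
  | Sum.inl (Sum.inr _) => 0
  | Sum.inr j => if j ∈ R then 0 else ℓ j

/-- `ℓ` is the weight function of the circuit for the live inputs `B` and the cut set `R`. -/
def IsWt {n q : ℕ} (C : Circuit n q) (B : Finset (Fin n)) (R : Finset (Fin C.size))
    (ℓ : Fin C.size → ℕ) : Prop :=
  ∀ i, ℓ i = ∑ a, swt B R ℓ (C.src i a)

lemma exists_wt {n q : ℕ} (C : Circuit n q) (B : Finset (Fin n)) (R : Finset (Fin C.size)) :
    ∃ ℓ, IsWt C B R ℓ := by
  apply Pool.Agent.H559R2.Sharing.exists_fixed
    (fun i ℓ => ∑ a, swt B R ℓ (C.src i a))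
  intro i v v' h
  apply sum_congr rfl
  intro a _
  rcases hs : C.src i a with (j | j) | j
  · rfl
  · rfl
  · simp only [swt]
    split_ifs
    · rfl
    · exact h j (C.acyclic i a j hs)

/-! ### Families -/

section Family

variable {Ω : Type*} [Fintype Ω] [DecidableEq Ω] [Nonempty Ω]

/-- `S` is a family closed under post-composition, of size at most `2^(A*(2ℓ-1))`, consisting of
constant functions when `ℓ = 0`. -/
structure Good (A ℓ : ℕ) (S : Finset (Ω → Bool)) : Prop where
  closed : ∀ F ∈ S, ∀ ψ : Bool → Bool, (fun Y => ψ (F Y)) ∈ S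
  const : ℓ = 0 → ∀ F ∈ S, ∀ Y Y', F Y = F Y'
  card : S.card ≤ if ℓ = 0 then 2 else 2 ^ (A * (2 * ℓ - 1))

omit [DecidableEq Ω] [Nonempty Ω] in
lemma good_const [DecidableEq (Ω → Bool)] (A : ℕ) :
    Good A 0 ({fun _ => true, fun _ => false} : Finset (Ω → Bool)) := by
  refine ⟨?_, ?_, ?_⟩
  · intro F hF ψ
    simp only [mem_insert, mem_singleton] at hF ⊢
    rcases hF with rfl | rfl
    · cases h : ψ true
      · right; funext Y; simp [h]
      · left; funext Y; simp [h]
    · cases h : ψ false
      · right; funext Y; simp [h]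
      · left; funext Y; simp [h]
  · intro _ F hF Y Y'
    simp only [mem_insert, mem_singleton] at hF
    rcases hF with rfl | rfl <;> rfl
  · simp only [if_true]
    exact (card_insert_le _ _).trans (by simp)

omit [Fintype Ω] [DecidableEq Ω] [Nonempty Ω] in
lemma mem_const [DecidableEq (Ω → Bool)] (c : Bool) :
    (fun _ => c) ∈ ({fun _ => true, fun _ => false} : Finset (Ω → Bool)) := by
  cases c <;> simp

omit [DecidableEq Ω] [Nonempty Ω] in
/-- The functions of one block variable. -/
lemma good_var [DecidableEq (Ω → Bool)] {A : ℕ} (hA : 2 ≤ A) (α : Ω → Bool) :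
    Good A 1 ((univ : Finset (Bool → Bool)).image fun ψ => fun Y => ψ (α Y)) := by
  refine ⟨?_, by omega, ?_⟩
  · intro F hF ψ
    simp only [mem_image, mem_univ, true_and] at hF ⊢
    obtain ⟨ψ', rfl⟩ := hF
    exact ⟨fun b => ψ (ψ' b), rfl⟩
  · rw [if_neg (by norm_num)]
    refine card_image_le.trans ?_
    have : (univ : Finset (Bool → Bool)).card = 4 := by simp
    rw [this]
    calc 4 = 2 ^ 2 := by norm_num
      _ ≤ 2 ^ (A * (2 * 1 - 1)) := Nat.pow_le_pow_right (by norm_num) (by omega)

omit [Fintype Ω] [DecidableEq Ω] in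
lemma Good.card_le {A ℓ : ℕ} {S : Finset (Ω → Bool)} (h : Good A ℓ S) :
    S.card ≤ 2 * 2 ^ (2 * A * ℓ) := by
  have := h.card
  by_cases z : ℓ = 0
  · subst z; simpa using this
  · rw [if_neg z] at this
    have h1 : A * (2 * ℓ - 1) ≤ 2 * A * ℓ := by
      calc A * (2 * ℓ - 1) ≤ A * (2 * ℓ) := Nat.mul_le_mul_left _ (by omega)
        _ = 2 * A * ℓ := by ring
    have : (2 : ℕ) ^ (A * (2 * ℓ - 1)) ≤ 2 ^ (2 * A * ℓ) := Nat.pow_le_pow_right (by norm_num) h1
    omega

omit [DecidableEq Ω] in
lemma good_gate [DecidableEq (Ω → Bool)] {K k : ℕ} (φ : (Fin k → Bool) → Bool) (hφ : Narrow K φ)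
    (ℓ : Fin k → ℕ) (S : Fin k → Finset (Ω → Bool)) (hS : ∀ a, Good (2 * K + 2) (ℓ a) (S a)) :
    ∃ T : Finset (Ω → Bool), Good (2 * K + 2) (∑ a, ℓ a) T ∧
      ∀ F : Fin k → Ω → Bool, (∀ a, F a ∈ S a) → (fun Y => φ (fun a => F a Y)) ∈ T := by
  classical
  obtain ⟨Y₀⟩ := ‹Nonempty Ω›
  -- live wires
  let M : Finset (Fin k) := univ.filter fun a => ℓ a ≠ 0
  have hsumM : ∑ a, ℓ a = ∑ a ∈ M, ℓ a := by
    symm
    apply sum_subset (subset_univ _)
    intro a _ ha
    simp only [M, mem_filter, mem_univ, true_and, not_not] at ha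
    exact ha
  have hdead : ∀ F : Fin k → Ω → Bool, (∀ a, F a ∈ S a) → ∀ a ∉ M, ∀ Y, F a Y = F a Y₀ := by
    intro F hF a ha Y
    simp only [M, mem_filter, mem_univ, true_and, not_not] at ha
    exact (hS a).const ha _ (hF a) _ _
  have hfac : ∀ F : Fin k → Ω → Bool, (∀ a, F a ∈ S a) → ∀ Y,
      φ (fun a => F a Y) = restr φ M (fun a => F a Y₀) (fun a => F a Y) := by
    intro F hF Y
    unfold restr
    congr 1
    funext a
    by_cases ha : a ∈ M
    · simp [ha]
    · simp only [ha, dite_false]
      exact hdead F hF a ha Y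
  rcases Nat.lt_trichotomy M.card 1 with h0 | h1 | h2
  · -- no live wire
    have hM : M = ∅ := by
      rw [← card_eq_zero]; omega
    have hz : ∑ a, ℓ a = 0 := by rw [hsumM, hM, sum_empty]
    refine ⟨{fun _ => true, fun _ => false}, by rw [hz]; exact good_const _, ?_⟩
    intro F hF
    have : (fun Y => φ (fun a => F a Y)) = fun _ => φ (fun a => F a Y₀) := by
      funext Y
      congr 1
      funext a
      exact hdead F hF a (by rw [hM]; simp) Y
    rw [this]
    exact mem_const _
  · -- one live wire
    obtain ⟨a₀, ha₀⟩ := card_eq_one.1 h1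
    have hz : ∑ a, ℓ a = ℓ a₀ := by rw [hsumM, ha₀, sum_singleton]
    refine ⟨S a₀, by rw [hz]; exact hS a₀, ?_⟩
    intro F hF
    have : (fun Y => φ (fun a => F a Y)) =
        fun Y => (fun b => φ (fun a => if a = a₀ then b else F a Y₀)) (F a₀ Y) := by
      funext Y
      beta_reduce
      congr 1
      funext a
      by_cases ha : a = a₀
      · subst ha; simp
      · rw [if_neg ha]
        exact hdead F hF a (by rw [ha₀]; simpa using ha) Y
    rw [this]
    exact (hS a₀).closed _ (hF a₀) (fun b => φ (fun a => if a = a₀ then b else F a Y₀))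
  · -- at least two live wires
    have hMne : M.Nonempty := card_pos.1 (by omega)
    let P : Finset (({a // a ∈ M} → Bool) → Bool) := (Set.toFinite (Set.range (restr φ M))).toFinset
    have hP : P.card ≤ 2 ^ (K * M.card) := by
      have := hφ M hMne
      rw [restr_set] at this
      rwa [Set.ncard_eq_toFinset_card _ (Set.toFinite _)] at this
    let Q : Finset ({a // a ∈ M} → Ω → Bool) := Fintype.piFinset fun a => S a.1
    have hQ : Q.card ≤ 2 ^ ((2 * K + 2) * (2 * ∑ a ∈ M, ℓ a - M.card)) := by
      rw [Fintype.card_piFinset]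
      calc ∏ a : {a // a ∈ M}, (S a.1).card
          ≤ ∏ a : {a // a ∈ M}, 2 ^ ((2 * K + 2) * (2 * ℓ a.1 - 1)) := by
            apply prod_le_prod'
            intro a _
            have ha := a.2
            simp only [M, mem_filter, mem_univ, true_and] at ha
            have := (hS a.1).card
            rwa [if_neg ha] at this
        _ = 2 ^ (∑ a : {a // a ∈ M}, (2 * K + 2) * (2 * ℓ a.1 - 1)) := by
            rw [prod_pow_eq_pow_sum]
        _ = 2 ^ ((2 * K + 2) * (2 * ∑ a ∈ M, ℓ a - M.card)) := by
            congr 1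
            rw [← mul_sum]
            congr 1
            rw [Finset.sum_coe_sort M (fun a => 2 * ℓ a - 1)]
            have h3 : ∑ a ∈ M, (2 * ℓ a - 1) + M.card = 2 * ∑ a ∈ M, ℓ a := by
              rw [card_eq_sum_ones, ← sum_add_distrib, mul_sum]
              apply sum_congr rfl
              intro a ha
              simp only [M, mem_filter, mem_univ, true_and] at ha
              omega
            omega
    have hMle : M.card ≤ ∑ a ∈ M, ℓ a := by
      rw [card_eq_sum_ones]
      apply sum_le_sum
      intro a ha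
      simp only [M, mem_filter, mem_univ, true_and] at ha
      omega
    refine ⟨((univ : Finset (Bool → Bool)) ×ˢ (P ×ˢ Q)).image
      (fun p => fun Y => p.1 (p.2.1 (fun a => p.2.2 a Y))), ⟨?_, ?_, ?_⟩, ?_⟩
    · intro F hF ψ
      simp only [mem_image, mem_product, mem_univ, true_and, Prod.exists] at hF ⊢
      obtain ⟨ψ', g, F', hm, rfl⟩ := hF
      exact ⟨fun b => ψ (ψ' b), g, F', hm, rfl⟩
    · intro h
      rw [hsumM] at h
      omega
    · rw [hsumM, if_neg (by omega)]
      refine card_image_le.trans ?_
      rw [card_product, card_product]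
      have e3 : (univ : Finset (Bool → Bool)).card = 2 ^ 2 := by simp
      rw [e3]
      calc 2 ^ 2 * (P.card * Q.card)
          ≤ 2 ^ 2 * (2 ^ (K * M.card) * 2 ^ ((2 * K + 2) * (2 * ∑ a ∈ M, ℓ a - M.card))) := by
            gcongr
        _ = 2 ^ (2 + (K * M.card + (2 * K + 2) * (2 * ∑ a ∈ M, ℓ a - M.card))) := by
            rw [pow_add, pow_add]
        _ ≤ 2 ^ ((2 * K + 2) * (2 * ∑ a ∈ M, ℓ a - 1)) := by
            apply Nat.pow_le_pow_right (by norm_num)
            obtain ⟨m, hm⟩ : ∃ m, M.card = m + 2 := ⟨M.card - 2, by omega⟩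
            obtain ⟨t, ht⟩ : ∃ t, ∑ a ∈ M, ℓ a = (m + 2) + t := ⟨∑ a ∈ M, ℓ a - (m + 2), by omega⟩
            rw [hm, ht]
            have e1 : 2 * (m + 2 + t) - (m + 2) = m + 2 + 2 * t := by omega
            have e2 : 2 * (m + 2 + t) - 1 = 2 * m + 3 + 2 * t := by omega
            rw [e1, e2]
            nlinarith
    · intro F hF
      simp only [mem_image, mem_product, mem_univ, true_and, Prod.exists]
      refine ⟨id, restr φ M (fun a => F a Y₀), fun a => F a.1, ⟨?_, ?_⟩, ?_⟩
      · simp [P]
      · rw [Fintype.mem_piFinset]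
        intro a
        exact hF a.1
      · funext Y
        simp only [id]
        exact (hfac F hF Y).symm

end Family

section Main

variable {n q : ℕ} {Ω Z : Type*} [Fintype Ω] [DecidableEq Ω] [Nonempty Ω]

/-- Families for gates. -/
lemma gate_family {K : ℕ} (C : Circuit n q) (hC : ∀ i, Narrow K (C.op i)) (B : Finset (Fin n))
    (R : Finset (Fin C.size))
    (x : Z → Ω → Fin n ⊕ Fin q → Bool) (α : Ω → Fin n → Bool)
    (hx : ∀ z Y, ∀ i ∈ B, x z Y (Sum.inl i) = α Y i)
    (hx' : ∀ z Y Y', ∀ i ∉ B, x z Y (Sum.inl i) = x z Y' (Sum.inl i))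
    (hx'' : ∀ z Y Y' i, x z Y (Sum.inr i) = x z Y' (Sum.inr i))
    (ℓ : Fin C.size → ℕ) (hℓ : IsWt C B R ℓ)
    (V : Z → ({j // j ∈ R} → Bool) → Ω → Fin C.size → Bool)
    (hV : ∀ z a Y i, V z a Y i = C.op i (fun b => cutSrc R (x z Y) a (V z a Y) (C.src i b))) :
    ∀ (m : ℕ) (j : Fin C.size), j.val < m →
      ∃ S : Finset (Ω → Bool), Good (2 * K + 2) (ℓ j) S ∧ ∀ z a, (fun Y => V z a Y j) ∈ S := by
  classical
  intro m
  induction m with
  | zero => intro j hj; exact absurd hj (Nat.not_lt_zero _)
  | succ m ih =>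
    intro j hj
    have hsrc : ∀ b : Fin (C.arity j), ∃ S : Finset (Ω → Bool),
        Good (2 * K + 2) (swt B R ℓ (C.src j b)) S ∧
        ∀ z a, (fun Y => cutSrc R (x z Y) a (V z a Y) (C.src j b)) ∈ S := by
      intro b
      rcases hs : C.src j b with (i | i) | j'
      · by_cases hi : i ∈ B
        · refine ⟨(univ : Finset (Bool → Bool)).image fun ψ => fun Y => ψ (α Y i), ?_, ?_⟩
          · simp only [swt, hi, if_true]
            exact good_var (by omega) (fun Y => α Y i)
          · intro z a
            simp only [cutSrc, mem_image, mem_univ, true_and]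
            refine ⟨id, ?_⟩
            funext Y
            exact (hx z Y i hi).symm
        · refine ⟨{fun _ => true, fun _ => false}, ?_, ?_⟩
          · simp only [swt, hi, if_false]
            exact good_const _
          · intro z a
            obtain ⟨Y₀⟩ := ‹Nonempty Ω›
            have : (fun Y => cutSrc R (x z Y) a (V z a Y) (Sum.inl (Sum.inl i))) =
                fun _ => x z Y₀ (Sum.inl i) := by
              funext Y
              exact hx' z Y Y₀ i hi
            rw [this]
            exact mem_const _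
      · refine ⟨{fun _ => true, fun _ => false}, ?_, ?_⟩
        · simp only [swt]
          exact good_const _
        · intro z a
          obtain ⟨Y₀⟩ := ‹Nonempty Ω›
          have : (fun Y => cutSrc R (x z Y) a (V z a Y) (Sum.inl (Sum.inr i))) =
              fun _ => x z Y₀ (Sum.inr i) := by
            funext Y
            exact hx'' z Y Y₀ i
          rw [this]
          exact mem_const _
      · by_cases hR : j' ∈ R
        · refine ⟨{fun _ => true, fun _ => false}, ?_, ?_⟩
          · simp only [swt, hR, if_true]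
            exact good_const _
          · intro z a
            simp only [cutSrc, hR, dite_true]
            exact mem_const _
        · have hlt : j'.val < j.val := C.acyclic j b j' hs
          obtain ⟨S, hS, hmem⟩ := ih j' (by omega)
          refine ⟨S, by simpa only [swt, hR, if_false] using hS, ?_⟩
          intro z a
          simp only [cutSrc, hR, dite_false]
          exact hmem z a
    choose S hS hmem using hsrc
    obtain ⟨T, hT, hTmem⟩ := good_gate (C.op j) (hC j) _ S hS
    refine ⟨T, by rw [hℓ j]; exact hT, ?_⟩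
    intro z a
    have : (fun Y => V z a Y j) =
        fun Y => C.op j (fun b => cutSrc R (x z Y) a (V z a Y) (C.src j b)) := by
      funext Y; exact hV z a Y j
    rw [this]
    exact hTmem _ (fun b => hmem b z a)

/-- The family of accepted sets obtained by guessing the values of the cut gates. -/
theorem exists_family {K : ℕ} (C : Circuit n q) (hC : ∀ i, Narrow K (C.op i)) (B : Finset (Fin n))
    (R : Finset (Fin C.size)) (hout : C.out ∈ R)
    (x : Z → Ω → Fin n → Bool) (α : Ω → Fin n → Bool)
    (hx : ∀ z Y, ∀ i ∈ B, x z Y i = α Y i)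
    (hx' : ∀ z Y Y', ∀ i ∉ B, x z Y i = x z Y' i)
    (ℓ : Fin C.size → ℕ) (hℓ : IsWt C B R ℓ)
    (f : (Fin n → Bool) → Bool) (hf : C.Computes f) :
    ∃ H : Finset (Ω → Bool),
      H.card ≤ 2 ^ R.card * 2 ^ (2 * (2 * K + 2) * ∑ j ∈ R, ℓ j) ∧
      ∀ z, ∃ h ∈ H, (∀ Y, h Y = true → f (x z Y) = true) ∧
        (univ.filter fun Y => f (x z Y) = true).card ≤
          2 ^ (q + R.card) * (univ.filter fun Y => h Y = true).card := by
  classical
  choose V hV using fun (z : Z × (Fin q → Bool)) (a : {j // j ∈ R} → Bool) (Y : Ω) =>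
    exists_cutRun C R (Sum.elim (x z.1 Y) z.2) a
  have hgate := gate_family C hC B R
    (fun (z : Z × (Fin q → Bool)) Y => Sum.elim (x z.1 Y) z.2) α
    (fun z Y i hi => hx z.1 Y i hi) (fun z Y Y' i hi => hx' z.1 Y Y' i hi)
    (fun z Y Y' i => rfl) ℓ hℓ V hV
  have hS : ∀ j : Fin C.size,
      ∃ S : Finset (Ω → Bool), Good (2 * K + 2) (ℓ j) S ∧ ∀ z a, (fun Y => V z a Y j) ∈ S :=
    fun j => hgate (j.val + 1) j (Nat.lt_succ_self _)
  choose S hSgood hSmem using hS
  -- the family
  let T : Fin C.size → Finset (Ω → Bool) := fun j =>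
    if j ∈ R then S j else {fun _ => true}
  let H : Finset (Ω → Bool) := (Fintype.piFinset T).image
    (fun p => fun Y => decide (∀ j, p j Y = true))
  let chk : ({j // j ∈ R} → Bool) → Fin C.size → Bool → Bool := fun a j b =>
    if h : j ∈ R then (b == a ⟨j, h⟩) && (decide (j ≠ C.out) || b) else true
  let hfun : Z × (Fin q → Bool) → ({j // j ∈ R} → Bool) → Ω → Bool := fun z a Y =>
    decide (∀ j, chk a j (V z a Y j) = true)
  have hmemH : ∀ z a, hfun z a ∈ H := by
    intro z a
    simp only [H, mem_image]
    refine ⟨fun j Y => chk a j (V z a Y j), ?_, rfl⟩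
    rw [Fintype.mem_piFinset]
    intro j
    by_cases h : j ∈ R
    · simp only [T, h, if_true]
      exact (hSgood j).closed _ (hSmem j z a) (fun b => chk a j b)
    · simp only [T, h, if_false, mem_singleton, chk, dite_false]
  have hcard : H.card ≤ 2 ^ R.card * 2 ^ (2 * (2 * K + 2) * ∑ j ∈ R, ℓ j) := by
    refine card_image_le.trans ?_
    rw [Fintype.card_piFinset]
    have h1 : ∏ j, (T j).card ≤ ∏ j, (if j ∈ R then 2 * 2 ^ (2 * (2 * K + 2) * ℓ j) else 1) := by
      apply prod_le_prod'
      intro j _
      by_cases h : j ∈ R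
      · simp only [T, h, if_true]
        exact (hSgood j).card_le
      · simp only [T, h, if_false, card_singleton, le_refl]
    have h2 : ∏ j, (if j ∈ R then 2 * 2 ^ (2 * (2 * K + 2) * ℓ j) else 1) =
        2 ^ R.card * 2 ^ (2 * (2 * K + 2) * ∑ j ∈ R, ℓ j) := by
      rw [prod_ite_mem, univ_inter, prod_mul_distrib, prod_const, prod_pow_eq_pow_sum, mul_sum]
    exact h1.trans h2.le
  refine ⟨H, hcard, ?_⟩
  intro z
  -- soundness
  have hsound : ∀ w a Y, hfun (z, w) a Y = true → f (x z Y) = true := by
    intro w a Y h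
    simp only [hfun, decide_eq_true_eq] at h
    have hc' : ∀ j (hj : j ∈ R), V (z, w) a Y j = a ⟨j, hj⟩ := by
      intro j hj
      have := h j
      simp only [chk, hj, dite_true, Bool.and_eq_true, beq_iff_eq] at this
      exact this.1
    have ho : V (z, w) a Y C.out = true := by
      have := h C.out
      simp only [chk, hout, dite_true, Bool.and_eq_true, beq_iff_eq, ne_eq, not_true_eq_false,
        decide_false, Bool.false_or] at this
      exact this.2
    have hsv : ∀ b, cutSrc R (Sum.elim (x z Y) w) a (V (z, w) a Y) b =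
        Sum.elim (Sum.elim (x z Y) w) (V (z, w) a Y) b := by
      intro b
      rcases b with b | b
      · rfl
      · simp only [cutSrc, Sum.elim_inr]
        split_ifs with hb
        · exact (hc' b hb).symm
        · rfl
    rw [hf]
    refine ⟨w, V (z, w) a Y, ?_, ho⟩
    intro i
    rw [hV (z, w) a Y i]
    congr 1
    funext b
    exact hsv _
  -- completeness
  have hcomp : ∀ Y, f (x z Y) = true →
      ∃ wa : (Fin q → Bool) × ({j // j ∈ R} → Bool),
      hfun (z, wa.1) wa.2 Y = true := by
    intro Y h
    rw [hf] at h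
    obtain ⟨w, v, hrun, hout'⟩ := h
    refine ⟨(w, fun j => v j), ?_⟩
    have hsv : ∀ b, cutSrc R (Sum.elim (x z Y) w)
        (fun j : {j // j ∈ R} => v j) v b = Sum.elim (Sum.elim (x z Y) w) v b := by
      intro b
      rcases b with b | b
      · rfl
      · simp only [cutSrc, Sum.elim_inr]
        split_ifs <;> rfl
    have hVv : V (z, w) (fun j : {j // j ∈ R} => v j) Y = v := by
      have key : ∀ m : ℕ, ∀ i : Fin C.size, i.val < m →
          V (z, w) (fun j : {j // j ∈ R} => v j) Y i = v i := by
        intro m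
        induction m with
        | zero => intro i hi; exact absurd hi (Nat.not_lt_zero _)
        | succ m ih =>
          intro i hi
          rw [hV, hrun i]
          congr 1
          funext b
          rw [← hsv]
          rcases hs : C.src i b with b' | b'
          · rfl
          · simp only [cutSrc]
            have hlt : b'.val < i.val := C.acyclic i b b' hs
            split_ifs
            · rfl
            · exact ih b' (by omega)
      funext i
      exact key C.size i i.isLt
    simp only [hfun, decide_eq_true_eq]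
    rw [hVv]
    intro j
    by_cases hj : j ∈ R
    · simp only [chk, hj, dite_true, beq_self_eq_true, Bool.true_and, Bool.or_eq_true,
        decide_eq_true_eq]
      by_cases hjo : j = C.out
      · right; rw [hjo]; exact hout'
      · left; exact hjo
    · simp only [chk, hj, dite_false]
  -- pigeonhole
  by_contra hcon
  push Not at hcon
  have hlt : ∀ wa : (Fin q → Bool) × ({j // j ∈ R} → Bool),
      2 ^ (q + R.card) *
        (univ.filter fun Y => hfun (z, wa.1) wa.2 Y = true).card <
        (univ.filter fun Y => f (x z Y) = true).card := by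
    intro wa
    exact hcon _ (hmemH (z, wa.1) wa.2) (hsound wa.1 wa.2)
  have hsub : (univ.filter fun Y => f (x z Y) = true) ⊆
      (univ : Finset ((Fin q → Bool) × ({j // j ∈ R} → Bool))).biUnion
        (fun wa => univ.filter fun Y => hfun (z, wa.1) wa.2 Y = true) := by
    intro Y hY
    simp only [mem_filter, mem_univ, true_and] at hY
    obtain ⟨wa, hwa⟩ := hcomp Y hY
    simp only [mem_biUnion, mem_filter, mem_univ, true_and]
    exact ⟨wa, hwa⟩
  have hsum := (card_le_card hsub).trans card_biUnion_le
  have hN : (univ : Finset ((Fin q → Bool) × ({j // j ∈ R} → Bool))).card =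
      2 ^ (q + R.card) := by
    rw [card_univ]
    simp [Fintype.card_prod, pow_add]
  have hmul : 2 ^ (q + R.card) *
      ∑ wa : (Fin q → Bool) × ({j // j ∈ R} → Bool),
        (univ.filter fun Y => hfun (z, wa.1) wa.2 Y = true).card <
      2 ^ (q + R.card) * (univ.filter fun Y => f (x z Y) = true).card := by
    rw [mul_sum]
    calc ∑ wa : (Fin q → Bool) × ({j // j ∈ R} → Bool),
        2 ^ (q + R.card) *
          (univ.filter fun Y => hfun (z, wa.1) wa.2 Y = true).card
        < ∑ wa : (Fin q → Bool) × ({j // j ∈ R} → Bool),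
          (univ.filter fun Y => f (x z Y) = true).card := by
          apply sum_lt_sum_of_nonempty univ_nonempty
          intro wa _
          exact hlt wa
      _ = 2 ^ (q + R.card) * (univ.filter fun Y => f (x z Y) = true).card := by
          rw [sum_const, hN, smul_eq_mul]
  have := Nat.lt_of_mul_lt_mul_left hmul
  omega

end Main

end Pool.Agent.Y633.Dep
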