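import Mathlib
import Pool.Agent.Y633.Dep.Fam

/-! # The bound for one group of blocks, and the flow of weights -/

open Finset

set_option linter.unusedSectionVars false

namespace Pool.Agent.Y633.Dep

open Pool.Agent.H559R2.Sharing (hardFun msgLen modulus width numBlocks asg grp asg_mem asg_not_mem
  grp_disjoint hardFun_zero sgn_hardFun csgn_corr modulus_prime modulus_gt modulus_lt_two_pow
  code_bound)

/-- The bound for one group of blocks. -/
theorem group_bound {N q K : ℕ} (C : Circuit N q) (hK : ∀ i, Narrow K (C.op i))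
    (hC : C.Computes (hardFun N)) (g w : ℕ) (hg : g * w + w ≤ numBlocks N)
    (R : Finset (Fin C.size)) (hout : C.out ∈ R)
    (hw : 2 ^ (q + R.card + 4) ≤ msgLen N ^ w)
    (ℓ : Fin C.size → ℕ) (hℓ : IsWt C (grp N w g) R ℓ) :
    msgLen N ≤ 2 * (2 * K + 2) * ∑ j ∈ R, ℓ j + 2 * R.card + q + 4 := by
  classical
  have : Fact (modulus N).Prime := ⟨modulus_prime N⟩
  have : Nonempty (Fin (modulus N)) := ⟨⟨0, (modulus_prime N).pos⟩⟩
  obtain ⟨H, hHcard, hH⟩ := exists_family C hK (grp N w g) R hout (asg N g w)
    (fun Y => asg N g w (fun _ => false) Y)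
    (by
      intro z Y i hi
      exact asg_mem N g w z (fun _ => false) Y i hi)
    (by
      intro z Y Y' i hi
      exact asg_not_mem N g w z Y Y' i hi) ℓ hℓ (hardFun N) hC
  have hcode := code_bound (q + R.card)
    (fun z Y => hardFun N (asg N g w z Y)) (fun _ => false)
    (fun Y => hardFun_zero Y hg)
    (by
      intro z z' hzz
      have := csgn_corr (modulus N) (msgLen N) (width N) w (q + R.card)
        (modulus_lt_two_pow N).le (modulus_gt N).le hw z z' hzz
      refine le_trans (le_of_eq ?_) this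
      congr 1
      apply sum_congr rfl
      intro Y _
      rw [sgn_hardFun z Y hg, sgn_hardFun z' Y hg])
    H hH
  rw [Fintype.card_fun, Fintype.card_bool, Fintype.card_fin] at hcode
  have h1 : 2 ^ msgLen N ≤
      2 ^ (2 * (2 * K + 2) * ∑ j ∈ R, ℓ j + 2 * R.card + q + 3) + 1 := by
    refine hcode.trans (Nat.add_le_add_right ?_ 1)
    calc H.card * 2 ^ (q + R.card + 3)
        ≤ (2 ^ R.card * 2 ^ (2 * (2 * K + 2) * ∑ j ∈ R, ℓ j)) * 2 ^ (q + R.card + 3) :=
          Nat.mul_le_mul_right _ hHcard
      _ = 2 ^ (2 * (2 * K + 2) * ∑ j ∈ R, ℓ j + 2 * R.card + q + 3) := by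
          rw [← pow_add, ← pow_add]
          congr 1
          ring
  by_contra hcon
  push Not at hcon
  have h2 : 2 ^ (2 * (2 * K + 2) * ∑ j ∈ R, ℓ j + 2 * R.card + q + 3 + 1) ≤
      2 ^ msgLen N := Nat.pow_le_pow_right (by norm_num) (by omega)
  rw [pow_succ] at h2
  have h3 : 2 ≤ 2 ^ (2 * (2 * K + 2) * ∑ j ∈ R, ℓ j + 2 * R.card + q + 3) := by
    calc 2 = 2 ^ 1 := by norm_num
      _ ≤ _ := Nat.pow_le_pow_right (by norm_num) (by omega)
  omega

/-! ### Flow of weights -/

/-- The number of wires reading the input variables in `B`. -/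
def inWires {n q : ℕ} (C : Circuit n q) (B : Finset (Fin n)) : ℕ :=
  ∑ i, ∑ a, swt B univ (fun _ => 0) (C.src i a)

lemma inWires_le {n q : ℕ} (C : Circuit n q) (B : Finset (Fin n)) :
    inWires C B ≤ C.numWires := by
  unfold inWires Circuit.numWires
  apply sum_le_sum
  intro i _
  calc ∑ a, swt B univ (fun _ => 0) (C.src i a) ≤ ∑ a : Fin (C.arity i), 1 := by
        apply sum_le_sum
        intro a _
        rcases C.src i a with (j | j) | j
        · simp only [swt]; split_ifs <;> omega
        · simp [swt]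
        · simp [swt]
    _ = C.arity i := by simp

/-- Summing over disjoint sets of inputs. -/
lemma sum_inWires_le {n q : ℕ} (C : Circuit n q) {r : ℕ} (B : Fin r → Finset (Fin n))
    (hB : ∀ g g', g ≠ g' → Disjoint (B g) (B g')) :
    ∑ g, inWires C (B g) ≤ C.numWires := by
  classical
  refine le_trans ?_ (inWires_le C univ)
  unfold inWires
  rw [sum_comm]
  apply sum_le_sum
  intro i _
  rw [sum_comm]
  apply sum_le_sum
  intro a _
  rcases C.src i a with (j | j) | j
  · simp only [swt, mem_univ, if_true]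
    rw [← card_filter]
    apply card_le_one.2
    intro g hg g' hg'
    simp only [mem_filter, mem_univ, true_and] at hg hg'
    by_contra hne
    exact (disjoint_left.1 (hB g g' hne)) hg hg'
  · simp [swt]
  · simp [swt]

lemma sum_wt_le {n q : ℕ} (C : Circuit n q) {r : ℕ} (B : Fin r → Finset (Fin n))
    (hB : ∀ g g', g ≠ g' → Disjoint (B g) (B g')) (R : Finset (Fin C.size))
    (ℓ : Fin C.size → ℕ) (hℓ : IsWt C univ R ℓ) (ℓB : Fin r → Fin C.size → ℕ)
    (hℓB : ∀ g, IsWt C (B g) R (ℓB g)) :
    ∀ (m : ℕ) (j : Fin C.size), j.val < m → ∑ g, ℓB g j ≤ ℓ j := by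
  classical
  intro m
  induction m with
  | zero => intro j hj; exact absurd hj (Nat.not_lt_zero _)
  | succ m ih =>
    intro j hj
    rw [hℓ j]
    have h1 : ∑ g, ℓB g j = ∑ g, ∑ a, swt (B g) R (ℓB g) (C.src j a) := by
      apply sum_congr rfl
      intro g _
      exact hℓB g j
    rw [h1, sum_comm]
    apply sum_le_sum
    intro a _
    rcases hs : C.src j a with (i | i) | j'
    · simp only [swt, mem_univ, if_true]
      rw [← card_filter]
      apply card_le_one.2
      intro g hg g' hg'
      simp only [mem_filter, mem_univ, true_and] at hg hg'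
      by_contra hne
      exact (disjoint_left.1 (hB g g' hne)) hg hg'
    · simp [swt]
    · simp only [swt]
      split_ifs
      · simp
      · have : j'.val < j.val := C.acyclic j a j' hs
        exact ih j' (by omega)

/-- `ρ` is a rank function: it does not decrease along wires leaving gates outside `E`, and
increases when such a wire leaves a gate of fan-out at least two. -/
def IsRank {n q : ℕ} (C : Circuit n q) (E : Finset (Fin C.size)) (ρ : Fin C.size → ℕ) : Prop :=
  ∀ i a j, C.src i a = Sum.inr j → j ∉ E → ρ j + (if 2 ≤ C.fanOut j then 1 else 0) ≤ ρ i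

lemma flow_bound {n q : ℕ} (C : Circuit n q) (E : Finset (Fin C.size)) (ρ : Fin C.size → ℕ)
    (hρ : IsRank C E ρ) (B : Finset (Fin n)) (R : Finset (Fin C.size)) (hER : E ⊆ R)
    (ℓ : Fin C.size → ℕ) (hℓ : IsWt C B R ℓ)
    (x D : ℕ) (hx : 1 ≤ x)
    (hlow : ∀ j ∉ R, ℓ j ≠ 0 → 2 ≤ C.fanOut j → C.fanOut j ≤ x ∧ ρ j < D) :
    ∑ j ∈ R, ℓ j * x ^ (D - ρ j) ≤ inWires C B * x ^ D := by
  classical
  -- total over all gates
  have h1 : ∑ i, ℓ i * x ^ (D - ρ i) ≤ inWires C B * x ^ D +
      ∑ j ∈ Rᶜ, ℓ j * x ^ (D - ρ j) := by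
    have h2 : ∀ i, ℓ i * x ^ (D - ρ i) ≤ (∑ a, swt B univ (fun _ => 0) (C.src i a)) * x ^ D +
        ∑ a, ∑ j ∈ Rᶜ, if C.src i a = Sum.inr j then
          ℓ j * x ^ (D - (ρ j + (if 2 ≤ C.fanOut j then 1 else 0))) else 0 := by
      intro i
      rw [hℓ i, sum_mul, sum_mul, ← sum_add_distrib]
      apply sum_le_sum
      intro a _
      rcases hs : C.src i a with (i' | i') | j
      · by_cases hi' : i' ∈ B
        · simp only [swt, hi', if_true, one_mul]
          refine le_trans ?_ (Nat.le_add_right _ _)
          exact Nat.pow_le_pow_right hx (Nat.sub_le _ _)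
        · simp [swt, hi']
      · simp [swt]
      · simp only [swt, mem_univ, if_true, zero_mul, zero_add]
        by_cases hj : j ∈ R
        · simp [hj]
        · rw [if_neg hj]
          rw [sum_eq_single j]
          · rw [if_pos rfl]
            apply Nat.mul_le_mul_left
            apply Nat.pow_le_pow_right hx
            have := hρ i a j hs (fun h => hj (hER h))
            omega
          · intro j' _ hne
            rw [if_neg]
            intro h
            exact hne (Sum.inr_injective h).symm
          · intro h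
            exact absurd (mem_compl.2 hj) h
    calc ∑ i, ℓ i * x ^ (D - ρ i)
        ≤ ∑ i, ((∑ a, swt B univ (fun _ => 0) (C.src i a)) * x ^ D +
        ∑ a, ∑ j ∈ Rᶜ, if C.src i a = Sum.inr j then
          ℓ j * x ^ (D - (ρ j + (if 2 ≤ C.fanOut j then 1 else 0))) else 0) :=
          sum_le_sum fun i _ => h2 i
      _ = inWires C B * x ^ D + ∑ j ∈ Rᶜ, C.fanOut j *
          (ℓ j * x ^ (D - (ρ j + (if 2 ≤ C.fanOut j then 1 else 0)))) := by
          rw [sum_add_distrib, inWires, sum_mul]
          congr 1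
          have : ∀ i, (∑ a, ∑ j ∈ Rᶜ, if C.src i a = Sum.inr j then
              ℓ j * x ^ (D - (ρ j + (if 2 ≤ C.fanOut j then 1 else 0))) else 0) =
              ∑ j ∈ Rᶜ, (univ.filter fun a => C.src i a = Sum.inr j).card *
                (ℓ j * x ^ (D - (ρ j + (if 2 ≤ C.fanOut j then 1 else 0)))) := by
            intro i
            rw [sum_comm]
            apply sum_congr rfl
            intro j _
            rw [← sum_filter, sum_const, smul_eq_mul]
          simp only [this]
          rw [sum_comm]
          apply sum_congr rfl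
          intro j _
          rw [Circuit.fanOut, sum_mul]
      _ ≤ inWires C B * x ^ D + ∑ j ∈ Rᶜ, ℓ j * x ^ (D - ρ j) := by
          apply Nat.add_le_add_left
          apply sum_le_sum
          intro j hj
          rw [mem_compl] at hj
          by_cases h0 : ℓ j = 0
          · simp [h0]
          · by_cases hf : 2 ≤ C.fanOut j
            · obtain ⟨h3, h4⟩ := hlow j hj h0 hf
              rw [if_pos hf]
              calc C.fanOut j * (ℓ j * x ^ (D - (ρ j + 1)))
                  ≤ x * (ℓ j * x ^ (D - (ρ j + 1))) := Nat.mul_le_mul_right _ h3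
                _ = ℓ j * x ^ (D - (ρ j + 1) + 1) := by rw [pow_succ]; ring
                _ = ℓ j * x ^ (D - ρ j) := by congr 2; omega
            · rw [if_neg hf, add_zero]
              calc C.fanOut j * (ℓ j * x ^ (D - ρ j)) ≤ 1 * (ℓ j * x ^ (D - ρ j)) :=
                    Nat.mul_le_mul_right _ (by omega)
                _ = _ := one_mul _
  have h3 := sum_add_sum_compl R (fun i => ℓ i * x ^ (D - ρ i))
  omega

/-- Weights are determined below. -/
lemma wt_congr {n q : ℕ} (C : Circuit n q) (E : Finset (Fin C.size)) (ρ : Fin C.size → ℕ)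
    (hρ : IsRank C E ρ)
    (B : Finset (Fin n)) (R R' : Finset (Fin C.size)) (hER : E ⊆ R) (hER' : E ⊆ R')
    (ℓ ℓ' : Fin C.size → ℕ)
    (hℓ : IsWt C B R ℓ) (hℓ' : IsWt C B R' ℓ') (D : ℕ)
    (hR : ∀ j, ρ j + (if 2 ≤ C.fanOut j then 1 else 0) ≤ D → (j ∈ R ↔ j ∈ R')) :
    ∀ (m : ℕ) (j : Fin C.size), j.val < m → ρ j ≤ D → ℓ j = ℓ' j := by
  intro m
  induction m with
  | zero => intro j hj; exact absurd hj (Nat.not_lt_zero _)
  | succ m ih =>
    intro j hj hD
    rw [hℓ j, hℓ' j]
    apply sum_congr rfl
    intro a _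
    rcases hs : C.src j a with (i | i) | j'
    · rfl
    · rfl
    · simp only [swt]
      by_cases hE : j' ∈ E
      · rw [if_pos (hER hE), if_pos (hER' hE)]
      · have h1 := hρ j a j' hs hE
        have h2 : j'.val < j.val := C.acyclic j a j' hs
        have h3 := hR j' (by omega)
        have h4 := ih j' (by omega) (by omega)
        simp only [h3, h4]

end Pool.Agent.Y633.Dep
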