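import Mathlib
import Pool.Agent.Y633.Dep.Bound

/-! # Choosing the thresholds -/

open Finset

set_option linter.unusedSectionVars false

namespace Pool.Agent.Y633.Dep

/-- The cut set: the output, and the shared gates of fan-out above the threshold of their level. -/
noncomputable def cutX {n q : ℕ} (C : Circuit n q) (E : Finset (Fin C.size))
    (ρ : Fin C.size → ℕ) (X : ℕ → ℕ) : Finset (Fin C.size) :=
  univ.filter fun v => (v = C.out ∨ v ∈ E) ∨ (2 ≤ C.fanOut v ∧ X (ρ v) < C.fanOut v)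

lemma mem_cutX {n q : ℕ} {C : Circuit n q} {E : Finset (Fin C.size)} {ρ : Fin C.size → ℕ}
    {X : ℕ → ℕ} {v : Fin C.size} :
    v ∈ cutX C E ρ X ↔ (v = C.out ∨ v ∈ E) ∨ (2 ≤ C.fanOut v ∧ X (ρ v) < C.fanOut v) := by
  simp [cutX]

lemma sub_cutX {n q : ℕ} (C : Circuit n q) (E : Finset (Fin C.size)) (ρ : Fin C.size → ℕ)
    (X : ℕ → ℕ) : E ⊆ cutX C E ρ X := fun v hv => mem_cutX.2 (Or.inl (Or.inr hv))

lemma cutX_congr {n q : ℕ} (C : Circuit n q) (E : Finset (Fin C.size)) (ρ : Fin C.size → ℕ)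
    (hρ : IsRank C E ρ)
    (B : Finset (Fin n)) (X X' : ℕ → ℕ) (D : ℕ) (hX : ∀ l < D, X l = X' l)
    (ℓ ℓ' : Fin C.size → ℕ) (hℓ : IsWt C B (cutX C E ρ X) ℓ) (hℓ' : IsWt C B (cutX C E ρ X') ℓ')
    (v : Fin C.size) (hv : ρ v ≤ D) : ℓ v = ℓ' v := by
  refine wt_congr C E ρ hρ B _ _ (sub_cutX C E ρ X) (sub_cutX C E ρ X') ℓ ℓ' hℓ hℓ' D ?_
    (v.val + 1) v (Nat.lt_succ_self _) hv
  intro j hj
  rw [mem_cutX, mem_cutX]
  by_cases h2 : 2 ≤ C.fanOut j
  · rw [if_pos h2] at hj
    rw [hX (ρ j) (by omega)]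
  · simp [h2]

lemma level_total {n q : ℕ} (C : Circuit n q) (E : Finset (Fin C.size)) (ρ : Fin C.size → ℕ)
    (hρ : IsRank C E ρ) (X : ℕ → ℕ) (x D : ℕ) (hx : 1 ≤ x) (hX : ∀ l < D, X l ≤ x)
    (ℓ : Fin C.size → ℕ) (hℓ : IsWt C univ (cutX C E ρ X) ℓ) :
    ∑ v ∈ univ.filter (fun v => 2 ≤ C.fanOut v ∧ ρ v = D), ℓ v ≤ C.numWires * x ^ D := by
  classical
  let X' : ℕ → ℕ := fun l => if l < D then X l else 0
  obtain ⟨ℓ', hℓ'⟩ := exists_wt C univ (cutX C E ρ X')
  have hflow := flow_bound C E ρ hρ univ (cutX C E ρ X') (sub_cutX C E ρ X') ℓ' hℓ' x D hx (by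
    intro j hj _ h2
    rw [mem_cutX, not_or] at hj
    have h3 : C.fanOut j ≤ X' (ρ j) := by
      by_contra h
      exact hj.2 ⟨h2, by omega⟩
    by_cases h4 : ρ j < D
    · simp only [X', h4, if_true] at h3
      exact ⟨h3.trans (hX _ h4), h4⟩
    · simp only [X', h4, if_false] at h3
      omega)
  have h5 : ∑ v ∈ univ.filter (fun v => 2 ≤ C.fanOut v ∧ ρ v = D), ℓ v ≤
      ∑ j ∈ cutX C E ρ X', ℓ' j * x ^ (D - ρ j) := by
    have hsub : univ.filter (fun v => 2 ≤ C.fanOut v ∧ ρ v = D) ⊆ cutX C E ρ X' := by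
      intro v hv
      simp only [mem_filter, mem_univ, true_and] at hv
      rw [mem_cutX]
      right
      refine ⟨hv.1, ?_⟩
      simp only [X', hv.2, lt_irrefl, if_false]
      omega
    refine le_trans ?_ (sum_le_sum_of_subset hsub)
    apply sum_le_sum
    intro v hv
    simp only [mem_filter, mem_univ, true_and] at hv
    have h6 := cutX_congr C E ρ hρ univ X X' D (by
      intro l hl; simp [X', hl]) ℓ ℓ' hℓ hℓ' v hv.2.le
    rw [hv.2, Nat.sub_self, pow_zero, mul_one, h6]
  refine h5.trans (hflow.trans ?_)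
  exact Nat.mul_le_mul_right _ (inWires_le C univ)

/-- The window of the gates of level `l` with fan-out in `(a, b]`. -/
noncomputable def window {n q : ℕ} (C : Circuit n q) (ρ : Fin C.size → ℕ) (l a b : ℕ) :
    Finset (Fin C.size) :=
  univ.filter fun v => 2 ≤ C.fanOut v ∧ ρ v = l ∧ a < C.fanOut v ∧ C.fanOut v ≤ b

lemma mem_window {n q : ℕ} {C : Circuit n q} {ρ : Fin C.size → ℕ} {l a b : ℕ}
    {v : Fin C.size} : v ∈ window C ρ l a b ↔
      2 ≤ C.fanOut v ∧ ρ v = l ∧ a < C.fanOut v ∧ C.fanOut v ≤ b := by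
  simp [window]

theorem exists_thresh (c e i : ℕ) : ∀ Φ : ℕ → ℕ, ∃ Y : ℕ, ∀ (n q : ℕ) (C : Circuit n q)
    (E : Finset (Fin C.size)) (ρ : Fin C.size → ℕ), IsRank C E ρ → C.numWires ≤ c * n →
    ∃ (X : ℕ → ℕ) (x y : ℕ), 1 ≤ x ∧ Φ x ≤ y ∧ y ≤ Y ∧ (∀ l < i, X l ≤ x) ∧
      ∀ ℓ, IsWt C univ (cutX C E ρ X) ℓ → ∀ l < i, e * ∑ v ∈ window C ρ l (X l) y, ℓ v ≤ n := by
  induction i with
  | zero =>
    intro Φ
    refine ⟨Φ 1, fun n q C E ρ _ _ => ⟨fun _ => 0, 1, Φ 1, le_rfl, le_rfl, le_rfl, ?_, ?_⟩⟩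
    · intro l hl; omega
    · intro ℓ _ l hl; omega
  | succ i ih =>
    intro Φ
    let F : ℕ → ℕ := fun t => max (Φ t) (t + 1)
    let k : ℕ → ℕ := fun x => c * e * x ^ i + 1
    obtain ⟨Y, hY⟩ := ih (fun x => F^[k x] x)
    refine ⟨Y, ?_⟩
    intro n q C E ρ hρ hwires
    obtain ⟨X, x, y', hx1, hΦ, hy'Y, hXx, hwin⟩ := hY n q C E ρ hρ hwires
    obtain ⟨ℓ, hℓ⟩ := exists_wt C univ (cutX C E ρ X)
    -- the subwindows
    let t : ℕ → ℕ := fun m => F^[m] x
    have ht0 : t 0 = x := rfl
    have htS : ∀ m, t (m + 1) = F (t m) := fun m => Function.iterate_succ_apply' F m x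
    have htmono : StrictMono t := by
      apply strictMono_nat_of_lt_succ
      intro m
      rw [htS]
      exact lt_of_lt_of_le (Nat.lt_succ_self _) (le_max_right _ _)
    have htot := level_total C E ρ hρ X x i hx1 hXx ℓ hℓ
    have hex : ∃ m < k x, e * ∑ v ∈ window C ρ i (t m) (t (m + 1)), ℓ v ≤ n := by
      by_contra hcon
      push Not at hcon
      have h1 : ∑ m ∈ range (k x), ∑ v ∈ window C ρ i (t m) (t (m + 1)), ℓ v ≤
          ∑ v ∈ univ.filter (fun v => 2 ≤ C.fanOut v ∧ ρ v = i), ℓ v := by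
        rw [← sum_biUnion]
        · apply sum_le_sum_of_subset
          intro v hv
          rw [mem_biUnion] at hv
          obtain ⟨m, _, hv⟩ := hv
          rw [mem_window] at hv
          simp only [mem_filter, mem_univ, true_and]
          exact ⟨hv.1, hv.2.1⟩
        · intro m _ m' _ hne
          rw [Function.onFun, disjoint_left]
          intro v hv hv'
          rw [mem_window] at hv hv'
          rcases Nat.lt_or_gt_of_ne hne with h | h
          · have := htmono.monotone (Nat.succ_le_of_lt h)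
            simp only [Nat.succ_eq_add_one] at this
            omega
          · have := htmono.monotone (Nat.succ_le_of_lt h)
            simp only [Nat.succ_eq_add_one] at this
            omega
      have h2 : k x * (n + 1) ≤ e * (c * n * x ^ i) := by
        calc k x * (n + 1) = ∑ m ∈ range (k x), (n + 1) := by simp
          _ ≤ ∑ m ∈ range (k x), e * ∑ v ∈ window C ρ i (t m) (t (m + 1)), ℓ v := by
              apply sum_le_sum
              intro m hm
              exact hcon m (mem_range.1 hm)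
          _ = e * ∑ m ∈ range (k x), ∑ v ∈ window C ρ i (t m) (t (m + 1)), ℓ v := by
              rw [mul_sum]
          _ ≤ e * (c * n * x ^ i) := by
              apply Nat.mul_le_mul_left
              exact h1.trans (htot.trans (Nat.mul_le_mul_right _ hwires))
      have h3 : k x * (n + 1) = e * (c * n * x ^ i) + c * e * x ^ i + (n + 1) := by
        simp only [k]; ring
      omega
    obtain ⟨m, hm, hwm⟩ := hex
    have hyy : t (m + 1) ≤ y' := (htmono.monotone (Nat.succ_le_of_lt hm)).trans hΦ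
    refine ⟨Function.update X i (t m), t m, t (m + 1), ?_, ?_, hyy.trans hy'Y, ?_, ?_⟩
    · exact hx1.trans (htmono.monotone (Nat.zero_le m))
    · rw [htS]; exact le_max_left _ _
    · intro l hl
      by_cases hli : l = i
      · subst hli; simp
      · rw [Function.update_of_ne hli]
        exact (hXx l (by omega)).trans (htmono.monotone (Nat.zero_le m))
    · intro ℓ' hℓ' l hl
      have hsame : ∀ v, ρ v ≤ i → ℓ' v = ℓ v := by
        intro v hv
        refine cutX_congr C E ρ hρ univ _ _ i ?_ ℓ' ℓ hℓ' hℓ v hv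
        intro l' hl'
        rw [Function.update_of_ne (by omega)]
      by_cases hli : l = i
      · subst hli
        rw [Function.update_self]
        refine le_trans (Nat.mul_le_mul_left _ (le_of_eq ?_)) hwm
        apply sum_congr rfl
        intro v hv
        rw [mem_window] at hv
        exact hsame v hv.2.1.le
      · rw [Function.update_of_ne hli]
        refine le_trans (Nat.mul_le_mul_left _ ?_) (hwin ℓ hℓ l (by omega))
        calc ∑ v ∈ window C ρ l (X l) (t (m + 1)), ℓ' v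
            = ∑ v ∈ window C ρ l (X l) (t (m + 1)), ℓ v := by
              apply sum_congr rfl
              intro v hv
              rw [mem_window] at hv
              exact hsame v (by omega)
          _ ≤ _ := by
              apply sum_le_sum_of_subset
              intro v hv
              rw [mem_window] at hv ⊢
              exact ⟨hv.1, hv.2.1, hv.2.2.1, hv.2.2.2.trans hyy⟩

end Pool.Agent.Y633.Dep
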