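import Mathlib
import Pool.Agent.Y633.Dep.Thresh

/-! # The main theorem on the depth of sharing -/

open Finset

set_option linter.unusedSectionVars false

namespace Pool.Agent.Y633.Dep

open Pool.Agent.H559R2.Sharing (hardFun msgLen modulus width numBlocks grp grp_disjoint
  modulus_le modulus_prime modulus_gt width_pos)

/-! ### The rank function -/

lemma exists_rank {n q : ℕ} (C : Circuit n q) (E : Finset (Fin C.size)) (d : ℕ)
    (hd : C.SharingDepthLE E d) :
    ∃ ρ : Fin C.size → ℕ, IsRank C E ρ ∧
      ∀ j ∉ E, ρ j + (if 2 ≤ C.fanOut j then 1 else 0) ≤ d := by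
  classical
  obtain ⟨ρ, hρ⟩ := Pool.Agent.H559R2.Sharing.exists_fixed (s := C.size)
    (fun i (v : Fin C.size → ℕ) => univ.sup fun a : Fin (C.arity i) =>
      Sum.elim (fun _ => 0) (fun j => if j ∈ E then 0 else
        v j + (if 2 ≤ C.fanOut j then 1 else 0)) (C.src i a))
    (by
      intro i v v' h
      apply sup_congr rfl
      intro a _
      rcases hs : C.src i a with j | j
      · rfl
      · simp only [Sum.elim_inr]
        rw [h j (C.acyclic i a j hs)])
  refine ⟨ρ, ?_, ?_⟩
  · intro i a j hs hE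
    rw [hρ i]
    have := le_sup (f := fun a : Fin (C.arity i) =>
      Sum.elim (fun _ => 0) (fun j => if j ∈ E then 0 else
        ρ j + (if 2 ≤ C.fanOut j then 1 else 0)) (C.src i a))
      (mem_univ a)
    simpa only [hs, Sum.elim_inr, if_neg hE] using this
  · -- a path attaining the rank
    have key : ∀ (m : ℕ) (i : Fin C.size), i.val < m → ∃ l : List (Fin C.size),
        (l ++ [i]).IsChain (fun j i => ∃ a, C.src i a = Sum.inr j) ∧ (∀ j ∈ l, j ∉ E) ∧
        ρ i ≤ l.countP (fun j => 2 ≤ C.fanOut j) := by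
      intro m
      induction m with
      | zero => intro i hi; exact absurd hi (Nat.not_lt_zero _)
      | succ m ih =>
        intro i hi
        by_cases h0 : ρ i = 0
        · exact ⟨[], by simp, by simp, by omega⟩
        · have hne : (univ : Finset (Fin (C.arity i))).Nonempty := by
            by_contra hcon
            rw [not_nonempty_iff_eq_empty] at hcon
            rw [hρ i, hcon, sup_empty] at h0
            exact h0 rfl
          obtain ⟨a, _, ha⟩ := exists_mem_eq_sup univ hne (fun a : Fin (C.arity i) =>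
            Sum.elim (fun _ => 0) (fun j => if j ∈ E then 0 else
              ρ j + (if 2 ≤ C.fanOut j then 1 else 0)) (C.src i a))
          rw [← hρ i] at ha
          rcases hs : C.src i a with j | j
          · rw [hs, Sum.elim_inl] at ha
            exact absurd ha h0
          · rw [hs, Sum.elim_inr] at ha
            by_cases hE : j ∈ E
            · rw [if_pos hE] at ha
              exact absurd ha h0
            rw [if_neg hE] at ha
            have hlt : j.val < i.val := C.acyclic i a j hs
            obtain ⟨l, hl, hlE, hc⟩ := ih j (by omega)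
            refine ⟨l ++ [j], ?_, ?_, ?_⟩
            · have : l ++ [j] ++ [i] = l ++ j :: i :: [] := by simp
              rw [this, List.isChain_append_cons_cons]
              exact ⟨hl, ⟨a, hs⟩, by simp⟩
            · intro j' hj'
              rw [List.mem_append, List.mem_singleton] at hj'
              rcases hj' with h | h
              · exact hlE j' h
              · rw [h]; exact hE
            · rw [List.countP_append, ha]
              apply Nat.add_le_add hc
              simp only [List.countP_cons, List.countP_nil, decide_eq_true_eq]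
              omega
    intro j hjE
    obtain ⟨l, hl, hlE, hc⟩ := key (j.val + 1) j (Nat.lt_succ_self _)
    have := hd _ hl (by
      intro j' hj'
      rw [List.mem_append, List.mem_singleton] at hj'
      rcases hj' with h | h
      · exact hlE j' h
      · rw [h]; exact hjE)
    rw [List.countP_append] at this
    refine le_trans ?_ this
    apply Nat.add_le_add hc
    simp only [List.countP_cons, List.countP_nil, decide_eq_true_eq]
    omega

/-! ### Fan-outs -/

lemma sum_fanOut_le {n q : ℕ} (C : Circuit n q) : ∑ j, C.fanOut j ≤ C.numWires := by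
  classical
  unfold Circuit.fanOut Circuit.numWires
  rw [sum_comm]
  apply sum_le_sum
  intro i _
  rw [← card_biUnion]
  · refine (card_le_univ _).trans ?_
    simp
  · intro j _ j' _ hne
    rw [Function.onFun, disjoint_left]
    intro a ha ha'
    simp only [mem_filter, mem_univ, true_and] at ha ha'
    rw [ha] at ha'
    exact hne (Sum.inr_injective ha')

lemma high_le {n q : ℕ} (C : Circuit n q) (y : ℕ) :
    (univ.filter fun v => y < C.fanOut v).card * y ≤ C.numWires := by
  refine le_trans ?_ (sum_fanOut_le C)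
  calc (univ.filter fun v => y < C.fanOut v).card * y
      = ∑ v ∈ univ.filter (fun v => y < C.fanOut v), y := by rw [sum_const, smul_eq_mul]
    _ ≤ ∑ v ∈ univ.filter (fun v => y < C.fanOut v), C.fanOut v := by
        apply sum_le_sum
        intro v hv
        simp only [mem_filter, mem_univ, true_and] at hv
        exact hv.le
    _ ≤ ∑ v, C.fanOut v := sum_le_sum_of_subset (subset_univ _)

/-! ### Numbers -/

lemma aux_pow (κ : ℕ) (h : 6 ≤ κ) : 20 * κ ≤ 2 ^ (κ + 1) := by
  induction κ, h using Nat.le_induction with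
  | base => norm_num
  | succ κ h ih => rw [pow_succ]; omega

lemma blocks_lower {N : ℕ} (hN2 : 128 ≤ N) :
    N ≤ 20 * (Nat.log 2 (msgLen N) * numBlocks N) := by
  set k := msgLen N with hk
  have hkdef : k = N / 2 := rfl
  have hk1 : N ≤ 2 * k + 1 := by omega
  have hk2 : 2 * k ≤ N := by omega
  have hk64 : 64 ≤ k := by omega
  set κ := Nat.log 2 k with hκ
  have hκ1 : 2 ^ κ ≤ k := Nat.pow_log_le_self 2 (by omega)
  have hκ2 : k < 2 ^ (κ + 1) := Nat.lt_pow_succ_log_self (by norm_num) k
  have hκ6 : 6 ≤ κ := by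
    rw [hκ, show (6 : ℕ) = Nat.log 2 64 by norm_num [Nat.log]]
    exact Nat.log_mono_right hk64
  have h20 : 20 * κ ≤ N := by
    have := aux_pow κ hκ6
    rw [pow_succ] at this
    omega
  have hL : width N ≤ 2 * κ + 3 := by
    rw [width, Nat.size_le]
    have h1 := modulus_le N (by rw [← hk]; omega)
    rw [← hk] at h1
    calc modulus N ≤ 2 * k ^ 2 := h1
      _ < 2 * (2 ^ (κ + 1)) ^ 2 := by
        have := Nat.pow_lt_pow_left hκ2 (n := 2) (by norm_num)
        omega
      _ = 2 ^ (2 * κ + 3) := by rw [← pow_mul, ← pow_succ']; congr 1; ring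
  set r := numBlocks N with hr
  have hLpos := width_pos N
  have hr1 : N - k < (r + 1) * (2 * width N) := by
    rw [hr, numBlocks, ← hk]
    have := Nat.lt_mul_div_succ (N - k) (b := 2 * width N) (by omega)
    rw [mul_comm]
    exact this
  have hr2 : N ≤ 10 * (κ * (r + 1)) := by
    have h1 : (r + 1) * (2 * width N) ≤ (r + 1) * (5 * κ) :=
      Nat.mul_le_mul_left _ (by omega)
    have h2 : (r + 1) * (5 * κ) = 5 * (κ * (r + 1)) := by ring
    omega
  have : κ * (r + 1) = κ * r + κ := by ring
  omega

lemma sq_le_two_pow (κ : ℕ) : κ ^ 2 ≤ 4 * 2 ^ κ := by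
  induction κ with
  | zero => norm_num
  | succ κ ih =>
    rcases Nat.lt_or_ge κ 3 with h | h
    · interval_cases κ <;> norm_num
    · rw [pow_succ 2 κ]
      nlinarith

lemma blocks_large {N r : ℕ} (hN : 128 ≤ N) (h : 6400 * r ^ 2 < N) : 2 * r ≤ numBlocks N := by
  by_contra hcon
  push Not at hcon
  have h1 := blocks_lower hN
  set κ := Nat.log 2 (msgLen N) with hκ
  have hk : msgLen N = N / 2 := rfl
  have hκ1 : 2 ^ κ ≤ N := (Nat.pow_log_le_self 2 (by rw [hk]; omega)).trans (Nat.div_le_self _ _)
  have h2 : N ≤ 40 * (κ * r) := by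
    calc N ≤ 20 * (κ * numBlocks N) := h1
      _ ≤ 20 * (κ * (2 * r)) := by gcongr
      _ = 40 * (κ * r) := by ring
  have h3 : κ ^ 2 ≤ 4 * N := (sq_le_two_pow κ).trans (Nat.mul_le_mul_left _ hκ1)
  have h4 : N * N ≤ 6400 * r ^ 2 * N := by
    calc N * N ≤ (40 * (κ * r)) * (40 * (κ * r)) := Nat.mul_le_mul h2 h2
      _ = 1600 * r ^ 2 * κ ^ 2 := by ring
      _ ≤ 1600 * r ^ 2 * (4 * N) := Nat.mul_le_mul_left _ h3
      _ = 6400 * r ^ 2 * N := by ring
  have h5 := Nat.le_of_mul_le_mul_right h4 (by omega)
  omega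

/-! ### The theorem -/

theorem main_bound (c d K : ℕ) (hc : 1 ≤ c) : ∃ m N₀ : ℕ, 1 ≤ m ∧ ∀ N q : ℕ, N₀ ≤ N → m * q ≤ N →
    ∀ C : Circuit N q, (∀ i, Allowed K (C.op i)) → C.numWires ≤ c * N →
      ∀ E : Finset (Fin C.size), m * E.card ≤ N → C.SharingDepthLE E d →
        ¬ C.Computes (hardFun N) := by
  classical
  -- constants
  set a2 : ℕ := 2 * (2 * (K + 2) + 2) with ha2
  have ha2pos : 1 ≤ a2 := by omega
  let rr : ℕ → ℕ := fun x => 16 * a2 * c * x ^ d
  obtain ⟨Y, hY⟩ := exists_thresh c (400 * (d + 1)) d (fun x => x + 200 * c * rr x)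
  refine ⟨200 * rr Y + 1, 6400 * (rr Y) ^ 2 + 1000 * rr Y + 129, by omega, ?_⟩
  intro N q hN hq C hallowed hwires E hEcard hdepth hC
  have hnarrow : ∀ i, Narrow (K + 2) (C.op i) := fun i => allowed_narrow (hallowed i)
  obtain ⟨ρ, hρ, hρd⟩ := exists_rank C E d hdepth
  obtain ⟨X, x, y, hx1, hΦ, hyY, hXx, hwin⟩ := hY N q C E ρ hρ hwires
  beta_reduce at hΦ
  set r := rr x with hr
  have hrdef : r = 16 * a2 * c * x ^ d := rfl
  have hxd : 1 ≤ x ^ d := Nat.one_le_pow _ _ hx1
  have hrpos : 1 ≤ r := by
    rw [hrdef]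
    exact Nat.mul_pos (Nat.mul_pos (by omega) (by omega)) hxd
  have hxy : x ≤ y := by omega
  have hry : 200 * c * r ≤ y := by omega
  have hrle : r ≤ rr Y := by
    rw [hrdef]
    simp only [rr]
    apply Nat.mul_le_mul_left
    exact Nat.pow_le_pow_left (hxy.trans hyY) _
  have hN128 : 128 ≤ N := by omega
  have hN1000 : 1000 * r ≤ N := by
    have : 1000 * r ≤ 1000 * rr Y := Nat.mul_le_mul_left _ hrle
    omega
  have hN6400 : 6400 * r ^ 2 < N := by
    have : 6400 * r ^ 2 ≤ 6400 * (rr Y) ^ 2 :=
      Nat.mul_le_mul_left _ (Nat.pow_le_pow_left hrle 2)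
    omega
  have hblocks := blocks_large hN128 hN6400
  have hlower := blocks_lower hN128
  have hqr : 200 * r * q ≤ N := by
    calc 200 * r * q ≤ 200 * rr Y * q := by gcongr
      _ ≤ (200 * rr Y + 1) * q := by gcongr; omega
      _ ≤ N := hq
  have hEr : 200 * r * E.card ≤ N := by
    calc 200 * r * E.card ≤ 200 * rr Y * E.card := by gcongr
      _ ≤ (200 * rr Y + 1) * E.card := by gcongr; omega
      _ ≤ N := hEcard
  set w := numBlocks N / r with hw
  have hwr : w * r ≤ numBlocks N := Nat.div_mul_le_self _ _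
  set κ := Nat.log 2 (msgLen N) with hκ
  have hkw : N ≤ 40 * (κ * w * r) := by
    have h1 : numBlocks N < r * (w + 1) := by
      rw [hw]; exact Nat.lt_mul_div_succ _ (by omega)
    have h2 : numBlocks N ≤ 2 * (w * r) := by
      have : r * (w + 1) = w * r + r := by ring
      omega
    calc N ≤ 20 * (κ * numBlocks N) := hlower
      _ ≤ 20 * (κ * (2 * (w * r))) := by gcongr
      _ = 40 * (κ * w * r) := by ring
  -- weights
  obtain ⟨ℓ, hℓ⟩ := exists_wt C univ (cutX C E ρ X)
  choose ℓB hℓB using fun g : Fin r => exists_wt C (grp N w g) (cutX C E ρ X)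
  have hdisj : ∀ g g' : Fin r, g ≠ g' → Disjoint (grp N w g) (grp N w g') :=
    fun g g' h => grp_disjoint N w g g' (fun h' => h (Fin.ext h'))
  -- the union of the windows
  let W : Finset (Fin C.size) := (range d).biUnion fun l => window C ρ l (X l) y
  have hWsum : 400 * ∑ v ∈ W, ℓ v ≤ N := by
    have h1 : ∑ v ∈ W, ℓ v ≤ ∑ l ∈ range d, ∑ v ∈ window C ρ l (X l) y, ℓ v := by
      apply le_of_eq
      apply sum_biUnion
      intro l _ l' _ hne
      rw [Function.onFun, disjoint_left]
      intro v hv hv'
      rw [mem_window] at hv hv'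
      exact hne (hv.2.1.symm.trans hv'.2.1)
    have h2 : (400 * (d + 1)) * ∑ v ∈ W, ℓ v ≤ d * N := by
      calc (400 * (d + 1)) * ∑ v ∈ W, ℓ v
          ≤ (400 * (d + 1)) * ∑ l ∈ range d, ∑ v ∈ window C ρ l (X l) y, ℓ v :=
            Nat.mul_le_mul_left _ h1
        _ = ∑ l ∈ range d, (400 * (d + 1)) * ∑ v ∈ window C ρ l (X l) y, ℓ v := by
            rw [mul_sum]
        _ ≤ ∑ l ∈ range d, N := by
            apply sum_le_sum
            intro l hl
            exact hwin ℓ hℓ l (mem_range.1 hl)
        _ = d * N := by simp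
    have h3 : (d + 1) * (400 * ∑ v ∈ W, ℓ v) ≤ (d + 1) * N := by
      calc (d + 1) * (400 * ∑ v ∈ W, ℓ v) = (400 * (d + 1)) * ∑ v ∈ W, ℓ v := by ring
        _ ≤ d * N := h2
        _ ≤ (d + 1) * N := by gcongr; omega
    exact Nat.le_of_mul_le_mul_left h3 (by omega)
  -- number of live window gates
  let L : Fin r → ℕ := fun g => (W.filter fun v => ℓB g v ≠ 0).card
  have hL : 400 * ∑ g, L g ≤ N := by
    refine le_trans (Nat.mul_le_mul_left _ ?_) hWsum
    calc ∑ g, L g ≤ ∑ g, ∑ v ∈ W, ℓB g v := by
          apply sum_le_sum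
          intro g _
          simp only [L]
          rw [card_eq_sum_ones, sum_filter]
          apply sum_le_sum
          intro v _
          split_ifs <;> omega
      _ = ∑ v ∈ W, ∑ g, ℓB g v := sum_comm
      _ ≤ ∑ v ∈ W, ℓ v := by
          apply sum_le_sum
          intro v _
          exact sum_wt_le C (fun g : Fin r => grp N w g) hdisj (cutX C E ρ X) ℓ hℓ ℓB hℓB
            (v.val + 1) v (Nat.lt_succ_self _)
  have hIn : ∑ g : Fin r, inWires C (grp N w g) ≤ c * N :=
    (sum_inWires_le C (fun g : Fin r => grp N w g) hdisj).trans hwires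
  -- a good group
  have hgood : ∃ g : Fin r, r * (inWires C (grp N w g) + 400 * c * L g) ≤ 2 * (c * N) := by
    by_contra hcon
    push Not at hcon
    have h1 : ∑ g : Fin r, (inWires C (grp N w g) + 400 * c * L g) ≤ 2 * (c * N) := by
      rw [sum_add_distrib, ← mul_sum]
      have h2 : 400 * c * ∑ g, L g ≤ c * N := by
        calc 400 * c * ∑ g, L g = c * (400 * ∑ g, L g) := by ring
          _ ≤ c * N := Nat.mul_le_mul_left _ hL
      omega
    have h3 : ∑ g : Fin r, (2 * (c * N) + 1) ≤
        ∑ g : Fin r, r * (inWires C (grp N w g) + 400 * c * L g) :=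
      sum_le_sum fun g _ => hcon g
    rw [← mul_sum, sum_const, card_univ, Fintype.card_fin, smul_eq_mul] at h3
    have h4 := Nat.le_of_mul_le_mul_left h3 (by omega)
    omega
  obtain ⟨g, hg⟩ := hgood
  have hgW : r * inWires C (grp N w g) ≤ 2 * (c * N) :=
    le_trans (Nat.mul_le_mul_left _ (Nat.le_add_right _ _)) hg
  have hgL : 200 * r * L g ≤ N := by
    have h1 : r * (400 * c * L g) ≤ 2 * (c * N) :=
      le_trans (Nat.mul_le_mul_left _ (Nat.le_add_left _ _)) hg
    have h2 : (2 * c) * (200 * r * L g) ≤ (2 * c) * N := by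
      calc (2 * c) * (200 * r * L g) = r * (400 * c * L g) := by ring
        _ ≤ 2 * (c * N) := h1
        _ = (2 * c) * N := by ring
    exact Nat.le_of_mul_le_mul_left h2 (by omega)
  -- the cut set
  let R : Finset (Fin C.size) := (cutX C E ρ X).filter fun v =>
    (v = C.out ∨ v ∈ E) ∨ y < C.fanOut v ∨ ℓB g v ≠ 0
  have hout : C.out ∈ R := by
    simp [R, mem_cutX]
  have hwtR : IsWt C (grp N w g) R (ℓB g) := by
    intro i
    rw [hℓB g i]
    apply sum_congr rfl
    intro a _
    rcases hs : C.src i a with (j | j) | j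
    · rfl
    · rfl
    · simp only [swt]
      by_cases h1 : j ∈ cutX C E ρ X
      · rw [if_pos h1]
        by_cases h2 : j ∈ R
        · rw [if_pos h2]
        · rw [if_neg h2]
          simp only [R, mem_filter, not_and, not_or, not_not] at h2
          exact (h2 h1).2.2.symm
      · rw [if_neg h1, if_neg]
        intro h2
        exact h1 (mem_filter.1 h2).1
  set hi := (univ.filter fun v => y < C.fanOut v).card with hhi
  have hhi' : 200 * r * hi ≤ N := by
    have h1 := high_le C y
    rw [← hhi] at h1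
    have h2 : c * (200 * r * hi) ≤ c * N := by
      calc c * (200 * r * hi) = hi * (200 * c * r) := by ring
        _ ≤ hi * y := Nat.mul_le_mul_left _ hry
        _ ≤ C.numWires := h1
        _ ≤ c * N := hwires
    exact Nat.le_of_mul_le_mul_left h2 (by omega)
  have hRcard : R.card ≤ 1 + E.card + hi + L g := by
    have hsub : R ⊆ (({C.out} ∪ E) ∪ univ.filter fun v => y < C.fanOut v) ∪
        (W.filter fun v => ℓB g v ≠ 0) := by
      intro v hv
      simp only [R, mem_filter, mem_cutX] at hv
      simp only [mem_union, mem_singleton, mem_filter, mem_univ, true_and]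
      by_cases h1 : v = C.out ∨ v ∈ E
      · left; left; exact h1
      by_cases h2 : y < C.fanOut v
      · left; right; exact h2
      right
      have h3 : ℓB g v ≠ 0 := by
        rcases hv.2 with h | h | h
        · exact absurd h h1
        · exact absurd h h2
        · exact h
      have h4 : 2 ≤ C.fanOut v ∧ X (ρ v) < C.fanOut v := by
        rcases hv.1 with h | h
        · exact absurd h h1
        · exact h
      refine ⟨?_, h3⟩
      have h5 := hρd v (fun h => h1 (Or.inr h))
      rw [if_pos h4.1] at h5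
      simp only [W, mem_biUnion, mem_range]
      exact ⟨ρ v, by omega, mem_window.2 ⟨h4.1, rfl, h4.2, by omega⟩⟩
    refine (card_le_card hsub).trans ((card_union_le _ _).trans ?_)
    apply Nat.add_le_add_right
    refine (card_union_le _ _).trans ?_
    apply Nat.add_le_add_right
    refine (card_union_le _ _).trans ?_
    rw [card_singleton]
  have hT : 40 * (r * (q + R.card + 4)) ≤ N := by
    have h1 : q + R.card + 4 ≤ q + E.card + hi + L g + 5 := by omega
    have h2 : 200 * (r * (q + R.card + 4)) ≤ 5 * N := by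
      calc 200 * (r * (q + R.card + 4)) ≤ 200 * (r * (q + E.card + hi + L g + 5)) := by gcongr
        _ = 200 * r * q + 200 * r * E.card + 200 * r * hi + 200 * r * L g + 1000 * r := by ring
        _ ≤ N + N + N + N + N := by gcongr
        _ = 5 * N := by ring
    omega
  have hTw : q + R.card + 4 ≤ κ * w := by
    have h1 : (40 * r) * (q + R.card + 4) ≤ (40 * r) * (κ * w) := by
      calc (40 * r) * (q + R.card + 4) = 40 * (r * (q + R.card + 4)) := by ring
        _ ≤ N := hT
        _ ≤ 40 * (κ * w * r) := hkw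
        _ = (40 * r) * (κ * w) := by ring
    exact Nat.le_of_mul_le_mul_left h1 (by omega)
  have hk : msgLen N = N / 2 := rfl
  have hκ1 : 2 ^ κ ≤ msgLen N := Nat.pow_log_le_self 2 (by rw [hk]; omega)
  have hwpow : 2 ^ (q + R.card + 4) ≤ msgLen N ^ w := by
    calc 2 ^ (q + R.card + 4) ≤ 2 ^ (κ * w) := Nat.pow_le_pow_right (by norm_num) hTw
      _ = (2 ^ κ) ^ w := pow_mul _ _ _
      _ ≤ msgLen N ^ w := Nat.pow_le_pow_left hκ1 w
  have hgw : (g : ℕ) * w + w ≤ numBlocks N := by
    have h1 : ((g : ℕ) + 1) * w ≤ r * w := Nat.mul_le_mul_right _ g.isLt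
    have h2 : ((g : ℕ) + 1) * w = g * w + w := by ring
    have h3 : r * w = w * r := mul_comm _ _
    omega
  have hmain := group_bound C hnarrow hC g w hgw R hout hwpow (ℓB g) hwtR
  rw [← ha2] at hmain
  -- the flow bound
  have hER : E ⊆ R := by
    intro v hv
    simp only [R, mem_filter, mem_cutX]
    exact ⟨Or.inl (Or.inr hv), Or.inl (Or.inr hv)⟩
  have hflow := flow_bound C E ρ hρ (grp N w g) R hER (ℓB g) hwtR x d hx1 (by
    intro j hj h0 h2
    have h1 : j ∉ cutX C E ρ X := by
      intro h
      apply hj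
      simp only [R, mem_filter]
      exact ⟨h, Or.inr (Or.inr h0)⟩
    have h3 := hρd j (fun h => hj (hER h))
    rw [if_pos h2] at h3
    rw [mem_cutX, not_or] at h1
    have h4 : C.fanOut j ≤ X (ρ j) := by
      by_contra h
      exact h1.2 ⟨h2, by omega⟩
    exact ⟨h4.trans (hXx _ (by omega)), by omega⟩)
  have hsumR : ∑ j ∈ R, ℓB g j ≤ inWires C (grp N w g) * x ^ d := by
    refine le_trans ?_ hflow
    apply sum_le_sum
    intro j _
    exact Nat.le_mul_of_pos_right _ (Nat.pow_pos (by omega))
  have hfin : 8 * (a2 * ∑ j ∈ R, ℓB g j) ≤ N := by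
    have h1 : (2 * c) * x ^ d * (8 * (a2 * ∑ j ∈ R, ℓB g j)) ≤ (2 * c) * x ^ d * N := by
      generalize inWires C (grp N w g) = iw at hgW hsumR
      generalize ∑ j ∈ R, ℓB g j = sl at hsumR
      calc (2 * c) * x ^ d * (8 * (a2 * sl))
          ≤ (2 * c) * x ^ d * (8 * (a2 * (iw * x ^ d))) := by gcongr
        _ = x ^ d * ((16 * a2 * c * x ^ d) * iw) := by ring
        _ ≤ x ^ d * (2 * (c * N)) := by
            rw [← hrdef]
            exact Nat.mul_le_mul_left _ hgW
        _ = (2 * c) * x ^ d * N := by ring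
    exact Nat.le_of_mul_le_mul_left h1 (Nat.mul_pos (by omega) (Nat.pow_pos (by omega)))
  have hT' : 40 * (q + R.card + 4) ≤ N := by
    refine le_trans ?_ hT
    apply Nat.mul_le_mul_left
    exact Nat.le_mul_of_pos_left _ hrpos
  omega

end Pool.Agent.Y633.Dep
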